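import Mathlib

set_option autoImplicit false

namespace Pool.Agent.H.MP_5939ed_al

open Equiv Finset

section Ham
variable {X : Type} [Fintype X] [DecidableEq X]

def D (s t : Perm X) : ℕ := (univ.filter (fun i => s i ≠ t i)).card

theorem D_comm (s t : Perm X) : D s t = D t s := by
  unfold D; congr 1; ext i; simp [ne_comm]

theorem D_tri (s t u : Perm X) : D s u ≤ D s t + D t u := by
  unfold D
  refine le_trans (card_le_card ?_) (card_union_le _ _)
  intro i hi
  simp only [mem_filter, mem_univ, true_and, mem_union] at *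
  by_contra h
  push Not at h
  exact hi (h.1.trans h.2)

theorem D_mul_left (g s t : Perm X) : D (g * s) (g * t) = D s t := by
  unfold D; congr 1; ext i; simp

theorem D_mul_right (g s t : Perm X) : D (s * g) (t * g) = D s t := by
  unfold D
  refine card_bij (fun i _ => g i) ?_ ?_ ?_
  · intro i hi; simpa using hi
  · intro i _ j _ h; exact g.injective h
  · intro j hj; exact ⟨g⁻¹ j, by simpa using hj, by simp⟩

theorem D_mul (s t s' t' : Perm X) : D (s * t) (s' * t') ≤ D s s' + D t t' := by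
  have := D_tri (s * t) (s' * t) (s' * t')
  rwa [D_mul_right, D_mul_left] at this

theorem D_inv (s t : Perm X) : D s⁻¹ t⁻¹ = D s t := by
  have h1 := D_mul_left s s⁻¹ t⁻¹
  have h2 := D_mul_right t (s * s⁻¹) (s * t⁻¹)
  rw [← h1, ← h2, D_comm]; simp

theorem D_congr {Y : Type} [Fintype Y] [DecidableEq Y] (e : X ≃ Y) (s t : Perm X) :
    D (e.permCongr s) (e.permCongr t) = D s t := by
  unfold D
  refine card_bij (fun i _ => e.symm i) ?_ ?_ ?_
  · intro i hi; simpa using hi
  · intro i _ j _ h; exact e.symm.injective h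
  · intro j hj; exact ⟨e j, by simpa using hj, by simp⟩

end Ham

theorem exact_comm {G : Type} [Group G] [Finite G] (n : ℕ) (a b c : G)
    (h1 : b⁻¹ * a * b = a ^ n) (h2 : a⁻¹ * c * a = c ^ n) :
    ((b * a * b⁻¹)⁻¹ * c * (b * a * b⁻¹)) * c = c * ((b * a * b⁻¹)⁻¹ * c * (b * a * b⁻¹)) := by
  set r := b * a * b⁻¹ with hr
  have hra : r ^ n = a := by
    rw [hr, conj_pow, ← h1]; group
  have hle : Subgroup.zpowers a ≤ Subgroup.zpowers r := by
    rw [Subgroup.zpowers_le, ← hra]; exact Subgroup.npow_mem_zpowers r n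
  have hord : orderOf r = orderOf a := by
    have : r = MulAut.conj b a := by simp [hr]
    rw [this]; exact MulEquiv.orderOf_eq _ _
  have heq : Subgroup.zpowers a = Subgroup.zpowers r := by
    apply Subgroup.eq_of_le_of_card_ge hle
    rw [Nat.card_zpowers, Nat.card_zpowers, hord]
  have hm : r ∈ Subgroup.zpowers a := by rw [heq]; exact Subgroup.mem_zpowers r
  rw [← mem_powers_iff_mem_zpowers] at hm
  obtain ⟨j, hj⟩ := hm
  have key : ∀ j : ℕ, (a ^ j)⁻¹ * c * a ^ j = c ^ (n ^ j) := by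
    intro j
    induction j with
    | zero => simp
    | succ j ih =>
      have : (a ^ (j + 1))⁻¹ * c * a ^ (j + 1) = a⁻¹ * ((a ^ j)⁻¹ * c * a ^ j) * a := by group
      rw [this, ih]
      have h3 : a⁻¹ * c ^ (n ^ j) * a = (a⁻¹ * c * a) ^ (n ^ j) := by
        have := conj_pow (a := a⁻¹) (b := c) (i := n ^ j)
        simpa using this.symm
      rw [h3, h2, ← pow_mul, pow_succ']
  simp only at hj
  rw [← hj, key, ← pow_succ, ← pow_succ']

section Model
variable (n m k : ℕ)

abbrev Y (n : ℕ) := ZMod (n + 1) × ZMod (n + 1)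

def g (n : ℕ) (t : ZMod (n + 1)) : Perm (Y n) where
  toFun y := (y.1 + t, y.2)
  invFun y := (y.1 - t, y.2)
  left_inv y := by simp
  right_inv y := by simp

def h (n : ℕ) (t : ZMod (n + 1)) : Perm (Y n) where
  toFun y := (y.1, y.2 + t * y.1)
  invFun y := (y.1, y.2 - t * y.1)
  left_inv y := by simp
  right_inv y := by simp

theorem g_pow (t : ZMod (n + 1)) (j : ℕ) : g n t ^ j = g n (j * t) := by
  induction j with
  | zero => ext y <;> simp [g]
  | succ j ih => rw [pow_succ, ih]; ext y <;> simp [g]; ring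

theorem h_pow (t : ZMod (n + 1)) (j : ℕ) : h n t ^ j = h n (j * t) := by
  induction j with
  | zero => ext y <;> simp [h]
  | succ j ih => rw [pow_succ, ih]; ext y <;> simp [h]; ring

def cx (x : ℕ) : Perm (Y n) :=
  if x < k then g n ((n : ZMod (n + 1)) ^ x) else h n ((n : ZMod (n + 1)) ^ x)

theorem cx_succ (x : ℕ) (hx : x + 1 ≠ k) : cx n k (x + 1) = cx n k x ^ n := by
  unfold cx
  by_cases h1 : x < k
  · rw [if_pos h1, if_pos (by omega), g_pow, pow_succ']
  · rw [if_neg h1, if_neg (by omega), h_pow, pow_succ']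

theorem cx_ne (hn : 1 ≤ n) (x x' : ℕ) (hx : x < k) (hx' : ¬ x' < k) (y : Y n) :
    cx n k x' (cx n k x y) ≠ cx n k x (cx n k x' y) := by
  unfold cx
  rw [if_pos hx, if_neg hx']
  intro hh
  have h2 := congrArg Prod.snd hh
  simp only [g, h, coe_fn_mk] at h2
  have hn1 : (n : ZMod (n + 1)) = -1 := by
    have : ((n + 1 : ℕ) : ZMod (n + 1)) = 0 := ZMod.natCast_self _
    push_cast at this; linear_combination this
  have h3 : (n : ZMod (n + 1)) ^ x' * (n : ZMod (n + 1)) ^ x = 0 := by linear_combination h2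
  rw [← pow_add, hn1] at h3
  haveI : Fact (1 < n + 1) := ⟨by omega⟩
  have : IsUnit ((-1 : ZMod (n + 1)) ^ (x' + x)) := (isUnit_one.neg).pow _
  exact this.ne_zero h3

def A : Perm (ZMod m × Y n) := (Equiv.addRight (1 : ZMod m)).prodCongr (Equiv.refl _)

def B (u : (ZMod m)ˣ) : Perm (ZMod m × Y n) := (u.mulLeft).prodCongr (Equiv.refl _)

def C : Perm (ZMod m × Y n) := Equiv.prodCongrRight (fun x => cx n k x.val)

theorem A_apply (p : ZMod m × Y n) : A n m p = (p.1 + 1, p.2) := rfl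
theorem A_inv (p : ZMod m × Y n) : (A n m)⁻¹ p = (p.1 - 1, p.2) := by
  rw [Perm.inv_eq_iff_eq, A_apply]; simp
theorem B_apply (u : (ZMod m)ˣ) (p : ZMod m × Y n) : B n m u p = (u * p.1, p.2) := rfl
theorem B_inv (u : (ZMod m)ˣ) (p : ZMod m × Y n) : (B n m u)⁻¹ p = (↑u⁻¹ * p.1, p.2) := by
  rw [Perm.inv_eq_iff_eq, B_apply]; simp
theorem C_apply (p : ZMod m × Y n) : C n m k p = (p.1, cx n k p.1.val p.2) := rfl

theorem A_pow (j : ℕ) (p : ZMod m × Y n) : (A n m ^ j) p = (p.1 + j, p.2) := by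
  induction j with
  | zero => simp
  | succ j ih => rw [pow_succ', Perm.mul_apply, ih, A_apply]; simp [add_assoc]

theorem C_pow (j : ℕ) (p : ZMod m × Y n) : (C n m k ^ j) p = (p.1, (cx n k p.1.val ^ j) p.2) := by
  induction j with
  | zero => simp
  | succ j ih => rw [pow_succ', Perm.mul_apply, ih, C_apply, pow_succ', Perm.mul_apply]

theorem rel1 (u : (ZMod m)ˣ) (hu : (↑u⁻¹ : ZMod m) = n) :
    (B n m u)⁻¹ * A n m * B n m u = A n m ^ n := by
  ext1 p
  rw [Perm.mul_apply, Perm.mul_apply, B_inv, A_apply, B_apply, A_pow]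
  simp only [mul_add, Units.inv_mul_cancel_left, mul_one]
  rw [hu]

theorem rel2 [NeZero m] (hm : 1 < m) :
    D ((A n m)⁻¹ * C n m k * A n m) (C n m k ^ n) ≤ 2 * Fintype.card (Y n) := by
  unfold D
  have : (univ.filter (fun i => ((A n m)⁻¹ * C n m k * A n m) i ≠ (C n m k ^ n) i)) ⊆
      ({(-1 : ZMod m), ((k - 1 : ℕ) : ZMod m)} : Finset (ZMod m)) ×ˢ (univ : Finset (Y n)) := by
    intro p hp
    simp only [mem_filter, mem_univ, true_and, mem_product, mem_insert, mem_singleton,
      and_true] at *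
    by_contra hc
    push Not at hc
    apply hp
    rw [Perm.mul_apply, Perm.mul_apply, A_inv, C_apply, A_apply, C_pow]
    haveI : Fact (1 < m) := ⟨hm⟩
    have hv : (p.1 + 1).val = p.1.val + 1 := by
      have h1 := ZMod.val_lt p.1
      have h2 : p.1.val + 1 ≠ m := by
        intro h3
        apply hc.1
        have : ((p.1.val + 1 : ℕ) : ZMod m) = 0 := by rw [h3]; exact ZMod.natCast_self m
        push_cast at this
        rw [ZMod.natCast_zmod_val] at this
        linear_combination this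
      rw [ZMod.val_add_of_lt] <;> rw [ZMod.val_one]
      omega
    simp only [add_sub_cancel_right]
    rw [hv, cx_succ]
    intro h3
    apply hc.2
    rw [← h3]; simp
  refine le_trans (card_le_card this) ?_
  rw [card_product, card_univ]
  exact Nat.mul_le_mul_right _ card_le_two

theorem far [NeZero m] (hn : 1 ≤ n) (u : (ZMod m)ˣ) (hu : (u : ZMod m) = k) (j : ℕ)
    (hj : j ≤ k) (hjk : j + k ≤ m) :
    j * Fintype.card (Y n) ≤
      D (((B n m u * A n m * (B n m u)⁻¹)⁻¹ * C n m k * (B n m u * A n m * (B n m u)⁻¹)) * C n m k)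
        (C n m k * ((B n m u * A n m * (B n m u)⁻¹)⁻¹ * C n m k *
          (B n m u * A n m * (B n m u)⁻¹))) := by
  have hr : ∀ p, (B n m u * A n m * (B n m u)⁻¹) p = (p.1 + k, p.2) := by
    intro p
    rw [Perm.mul_apply, Perm.mul_apply, B_inv, A_apply, B_apply]
    simp only [mul_add, Units.mul_inv_cancel_left, mul_one]
    rw [hu]
  have hp : ∀ p, ((B n m u * A n m * (B n m u)⁻¹)⁻¹ * C n m k *
      (B n m u * A n m * (B n m u)⁻¹)) p = (p.1, cx n k (p.1 + k).val p.2) := by
    intro p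
    rw [Perm.mul_apply, Perm.mul_apply, Perm.inv_eq_iff_eq, hr, hr, C_apply]
  unfold D
  have hc : (((range j).image (fun x : ℕ => (x : ZMod m))) ×ˢ (univ : Finset (Y n))).card
      = j * Fintype.card (Y n) := by
    rw [card_product, card_univ, card_image_of_injOn, card_range]
    intro x hx x' hx' hxx
    simp only [coe_range, Set.mem_Iio] at hx hx'
    have := congrArg ZMod.val hxx
    simp only at this
    rwa [ZMod.val_cast_of_lt (by omega), ZMod.val_cast_of_lt (by omega)] at this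
  rw [← hc]
  apply card_le_card
  intro p hp'
  simp only [mem_product, mem_image, mem_range, mem_univ, and_true, mem_filter, true_and] at *
  obtain ⟨x, hx, hxp⟩ := hp'
  rw [Perm.mul_apply, Perm.mul_apply (C n m k), hp, hp, C_apply, C_apply]
  intro hh
  have h2 := congrArg Prod.snd hh
  simp only at h2
  have h3 : p.1.val = x := by rw [← hxp, ZMod.val_cast_of_lt (by omega)]
  have h4 : (p.1 + k).val = x + k := by
    rw [← hxp, ← Nat.cast_add, ZMod.val_cast_of_lt (by omega)]
  rw [h3, h4] at h2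
  exact cx_ne n k hn x (x + k) (by omega) (by omega) _ h2

end Model

theorem word_le {X : Type} [Fintype X] [DecidableEq X] (a b c a' b' c' : Perm X) :
    D ((b * a * b⁻¹)⁻¹ * c * (b * a * b⁻¹)) ((b' * a' * b'⁻¹)⁻¹ * c' * (b' * a' * b'⁻¹))
      ≤ 2 * D a a' + 4 * D b b' + D c c' := by
  have h1 : D (b * a * b⁻¹) (b' * a' * b'⁻¹) ≤ D a a' + 2 * D b b' := by
    have := D_mul (b * a) b⁻¹ (b' * a') b'⁻¹
    have := D_mul b a b' a'
    have := D_inv b b'
    omega
  have := D_mul ((b * a * b⁻¹)⁻¹ * c) (b * a * b⁻¹) ((b' * a' * b'⁻¹)⁻¹ * c') (b' * a' * b'⁻¹)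
  have := D_mul (b * a * b⁻¹)⁻¹ c (b' * a' * b'⁻¹)⁻¹ c'
  have := D_inv (b * a * b⁻¹) (b' * a' * b'⁻¹)
  omega

theorem main (n : ℕ) (hn : 2 ≤ n) : ∃ ε : ℝ, 0 < ε ∧ ∀ δ : ℝ, 0 < δ →
    ∃ (N : ℕ) (a b c : Perm (Fin N)), 0 < N ∧ b⁻¹ * a * b = a ^ n ∧
      (D (a⁻¹ * c * a) (c ^ n) : ℝ) / N < δ ∧
      ∀ a' b' c' : Perm (Fin N), b'⁻¹ * a' * b' = a' ^ n → a'⁻¹ * c' * a' = c' ^ n →
        ¬ ((D a a' : ℝ) / N < ε ∧ (D b b' : ℝ) / N < ε ∧ (D c c' : ℝ) / N < ε) := by
  have hn0 : (0 : ℝ) < n := by exact_mod_cast (by omega : 0 < n)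
  refine ⟨1 / (32 * n), by positivity, fun δ hδ => ?_⟩
  obtain ⟨j0, hj0⟩ := exists_nat_gt (2 / δ)
  obtain ⟨n', rfl⟩ : ∃ n', n = n' + 2 := ⟨n - 2, by omega⟩
  set n := n' + 2 with hnn
  set j := j0 + 1 with hj
  set k := j + 1 with hk
  set m := n * j + (n' + 1) with hm
  have hmk : n * k = m + 1 := by rw [hk, hm, hnn]; ring
  have hjm : 2 * j + 1 ≤ m := by rw [hm]; nlinarith
  haveI : NeZero m := ⟨by omega⟩
  have hkn : (k : ZMod m) * n = 1 := by
    rw [← Nat.cast_mul, mul_comm, hmk]; simp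
  let u : (ZMod m)ˣ := ⟨k, n, hkn, by rw [mul_comm, hkn]⟩
  let X := ZMod m × Y n
  let e := Fintype.equivFin X
  let φ : Perm X ≃* Perm (Fin (Fintype.card X)) := e.permCongrHom
  have hφ : ∀ s t, D (φ s) (φ t) = D s t := fun s t => D_congr e s t
  have hX : Fintype.card X = m * Fintype.card (Y n) := by
    simp only [X, Fintype.card_prod (ZMod m), ZMod.card]
  have hY : 0 < Fintype.card (Y n) := Fintype.card_pos
  have hYr : (0 : ℝ) < Fintype.card (Y n) := by exact_mod_cast hY
  have hmr : (0 : ℝ) < m := by exact_mod_cast (by omega : 0 < m)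
  refine ⟨Fintype.card X, φ (A n m), φ (B n m u), φ (C n m k), Fintype.card_pos, ?_, ?_, ?_⟩
  · rw [← map_inv, ← map_mul, ← map_mul, ← map_pow, rel1 n m u rfl]
  · rw [← map_inv, ← map_mul, ← map_mul, ← map_pow, hφ, hX]
    have h1 : (D ((A n m)⁻¹ * C n m k * A n m) (C n m k ^ n) : ℝ) ≤ 2 * Fintype.card (Y n) := by
      exact_mod_cast rel2 n m k (by omega)
    rw [div_lt_iff₀ (by push_cast; positivity)]
    rw [div_lt_iff₀ hδ] at hj0
    have h2 : (j0 : ℝ) ≤ m := by exact_mod_cast (by omega : j0 ≤ m)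
    have h3 : 2 < δ * m := by nlinarith
    push_cast
    nlinarith
  · rintro a' b' c' h1 h2 ⟨ha, hb, hc⟩
    have hcomm := exact_comm n a' b' c' h1 h2
    have hfar := far n m k (by omega) u rfl j (by omega) (by omega)
    rw [← hφ] at hfar
    simp only [map_mul, map_inv] at hfar
    set a := φ (A n m)
    set b := φ (B n m u)
    set c := φ (C n m k)
    have hw := word_le a b c a' b' c'
    set p := (b * a * b⁻¹)⁻¹ * c * (b * a * b⁻¹)
    set p' := (b' * a' * b'⁻¹)⁻¹ * c' * (b' * a' * b'⁻¹)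
    have t1 := D_tri (p * c) (p' * c') (c * p)
    have t2 := D_mul p c p' c'
    have t3 := D_mul c p c' p'
    rw [← hcomm, D_comm] at t3
    have t4 : j * Fintype.card (Y n) ≤ 4 * D a a' + 8 * D b b' + 4 * D c c' := by omega
    have t5 : (j : ℝ) * Fintype.card (Y n) ≤ 4 * D a a' + 8 * D b b' + 4 * D c c' := by
      exact_mod_cast t4
    have hN : (0 : ℝ) < (Fintype.card X : ℕ) := by exact_mod_cast Fintype.card_pos
    rw [div_lt_div_iff₀ hN (by positivity)] at ha hb hc
    have hXr : ((Fintype.card X : ℕ) : ℝ) = m * Fintype.card (Y n) := by exact_mod_cast hX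
    rw [hXr] at ha hb hc
    have h6 : (m : ℝ) ≤ 2 * n * j := by
      have : m ≤ 2 * n * j := by rw [hm]; nlinarith
      exact_mod_cast this
    have h7 : (j : ℝ) * Fintype.card (Y n) * (32 * n) ≤
        (4 * D a a' + 8 * D b b' + 4 * D c c') * (32 * n) :=
      mul_le_mul_of_nonneg_right t5 (by positivity)
    have h8 : (m : ℝ) * Fintype.card (Y n) ≤ 2 * n * j * Fintype.card (Y n) :=
      mul_le_mul_of_nonneg_right h6 hYr.le
    nlinarith

end Pool.Agent.H.MP_5939ed_al
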